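import Mathlib

set_option autoImplicit false

/-!
# `CH_0(X, 1)` of smooth projective varieties: definitions

`X` is a projective variety over `k` with function field `E`, given by the homogeneous coordinates
`ξ` of its generic point. The points of `X` are their local rings in `E`.
-/

universe u

namespace Pool.Agent.Helper54.KX

open MvPolynomial Classical

/-! ## Projective varieties given by the homogeneous coordinates of their generic point -/

section Var

variable (k : Type u) {E : Type u} [Field k] [Field E] [Algebra k E] {r : ℕ}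

/-- the affine coordinate ring `k[ξ 0 / ξ j, ..., ξ r / ξ j]` of the part of the variety where the
coordinate `j` is nonzero -/
noncomputable def chart (ξ : Fin (r + 1) → E) (j : Fin (r + 1)) : Subalgebra k E :=
  Algebra.adjoin k (Set.range fun i => ξ i / ξ j)

/-- `O` is the local ring at a closed point: the localisation of an affine coordinate ring at a
maximal ideal -/
def IsClosedPt (ξ : Fin (r + 1) → E) (O : Subring E) : Prop :=
  ∃ j, ξ j ≠ 0 ∧ ∃ m : Ideal (chart k ξ j), m.IsMaximal ∧
    ∀ e : E, e ∈ O ↔ ∃ a b : chart k ξ j, b ∉ m ∧ e = (a : E) / b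

/-- The projective variety over `k` with generic point `ξ` has function field `E` and is regular of
dimension `n`: all its local rings at closed points are regular of dimension `n` (over a perfect
field: a smooth projective connected variety of dimension `n`). -/
structure IsSmoothVar (ξ : Fin (r + 1) → E) (n : ℕ) : Prop where
  ne : ξ ≠ 0
  frac : ∀ e : E, ∃ (m : ℕ) (G H : MvPolynomial (Fin (r + 1)) k), G.IsHomogeneous m ∧
    H.IsHomogeneous m ∧ aeval ξ H ≠ 0 ∧ e = aeval ξ G / aeval ξ H
  reg : ∀ O : Subring E, IsClosedPt k ξ O → IsRegularLocalRing O ∧ ringKrullDim O = n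

/-- The points of codimension `c` (of dimension `n - c` if `X` has dimension `n`), that is the
integral closed subschemes of codimension `c`, given by their local rings in the function field:
the localisations of the affine coordinate rings at prime ideals. (These rings are local.) -/
structure Pt (ξ : Fin (r + 1) → E) (c : ℕ) where
  /-- the local ring -/
  O : Subring E
  isPt : ∃ j, ξ j ≠ 0 ∧ ∃ q : Ideal (chart k ξ j), q.IsPrime ∧
    ∀ e : E, e ∈ O ↔ ∃ a b : chart k ξ j, b ∉ q ∧ e = (a : E) / b
  loc : IsLocalRing O
  codim : ringKrullDim O = c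

attribute [instance] Pt.loc

variable {k}

/-- the residue field of the point, the function field of the subscheme -/
abbrev Pt.K {ξ : Fin (r + 1) → E} {c : ℕ} (x : Pt k ξ c) : Type u := IsLocalRing.ResidueField x.O

/-- the value at the point of a function defined there -/
abbrev Pt.val {ξ : Fin (r + 1) → E} {c : ℕ} (x : Pt k ξ c) : x.O →+* x.K :=
  IsLocalRing.residue x.O

end Var

/-! ## Tame symbols -/

section Tame

variable {E : Type u} [Field E]

/-- the order of `f` at the discrete valuation ring `D` of `E`: the `n` with `f = w ϖ^n`, `w` a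
unit and `ϖ` a uniformizer of `D` (`0` if there is none) -/
noncomputable def ordD (D : ValuationSubring E) (f : E) : ℤ :=
  if h : ∃ n : ℤ, ∃ ϖ : D, Irreducible ϖ ∧ ∃ w : Dˣ, f = ((w : D) : E) * (ϖ : E) ^ n
  then h.choose else 0

/-- the class in the residue field of a unit of `D` (`1` for other elements of `E`) -/
noncomputable def rs (D : ValuationSubring E) (e : E) : (IsLocalRing.ResidueField D)ˣ :=
  if h : ∃ w : Dˣ, ((w : D) : E) = e then
    Units.map (IsLocalRing.residue D : D →* IsLocalRing.ResidueField D) h.choose else 1

/-- the tame symbol of `f` and `g` at `D`: the class of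
`(-1)^(ord f ord g) f^(ord g) / g^(ord f)` -/
noncomputable def tame (D : ValuationSubring E) (f g : E) : (IsLocalRing.ResidueField D)ˣ :=
  rs D ((-1) ^ (ordD D f * ordD D g) * (f ^ ordD D g * (g ^ ordD D f)⁻¹))

end Tame

section Bd

variable {k E : Type u} [Field k] [Field E] [Algebra k E] {r : ℕ} {ξ : Fin (r + 1) → E}

/-- The places of the function field of `W` centred at `C ⊆ W`: the valuation rings `D` other than
the field which contain the functions defined at `C`, exactly those which vanish at `C` being
nonunits of `D`. For a divisor `C` of `W` these are finitely many discrete valuation rings, the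
localisations of the normalisation of `W` at its points over `C`. -/
def Place {c d : ℕ} (C : Pt k ξ c) (W : Pt k ξ d) (h : C.O ≤ W.O) : Type u :=
  {D : ValuationSubring W.K // D ≠ ⊤ ∧ ∃ φ : C.O →+* D, IsLocalHom φ ∧
    ∀ e : C.O, (φ e : W.K) = W.val (Subring.inclusion h e)}

/-- The norm from the residue field of the place `D` to the function field of `C`. -/
noncomputable def nrm {c d : ℕ} {C : Pt k ξ c} {W : Pt k ξ d} {h : C.O ≤ W.O}
    (D : Place C W h) : (IsLocalRing.ResidueField D.1)ˣ →* C.Kˣ :=
  letI := D.2.2.choose_spec.1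
  letI : Algebra C.K (IsLocalRing.ResidueField D.1) :=
    (IsLocalRing.ResidueField.map D.2.2.choose).toAlgebra
  Units.map (Algebra.norm C.K : IsLocalRing.ResidueField D.1 →* C.K)

/-- The component at `C` of the boundary of the symbol `{f, g}` of the function field of `W`: the
product over the places `D` of `W` centred at `C` of the norms of the tame symbols (`1` if `C` is not
contained in `W`). -/
noncomputable def bd {c d : ℕ} (C : Pt k ξ c) (W : Pt k ξ d) (f g : W.K) : C.Kˣ :=
  if h : C.O ≤ W.O then ∏ᶠ D : Place C W h, nrm D (tame D.1 f g) else 1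

end Bd

/-! ## The divisor of a rational function -/

section Ord

variable {k E : Type u} [Field k] [Field E] [Algebra k E] {r : ℕ} {ξ : Fin (r + 1) → E}

/-- the ideal of `C` in the local ring of `y`: it is generated by the functions defined at `y` which
are not units at `C` -/
noncomputable def cen {c d : ℕ} (y : Pt k ξ c) (C : Pt k ξ d) : Ideal y.O :=
  Ideal.span {e | (e : E) = 0 ∨ (e : E)⁻¹ ∉ C.O}

/-- the length of `O / (P, g)`, where `O` is the local ring of `y` and `P` the ideal of `C` -/
noncomputable def len {c d : ℕ} (y : Pt k ξ c) (C : Pt k ξ d) (g : y.O) : ℕ :=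
  (Module.length y.O (y.O ⧸ (cen y C ⊔ Ideal.span {g}))).toNat

/-- the order at `y` of the rational function `a` on `C`: if `a` is the class of `g₁ / g₂`, `g₁` and
`g₂` defined at `y` and units at `C`, it is the length of `O / (P, g₁)` minus the length of
`O / (P, g₂)`, `P` the ideal of `C` in the local ring `O` of `y`; it is zero if `y` is not on `C` -/
noncomputable def ordP {c d : ℕ} (y : Pt k ξ c) (C : Pt k ξ d) (a : C.Kˣ) : ℤ :=
  if h : y.O ≤ C.O ∧ ∃ g : y.O × y.O, (g.1 : E) ≠ 0 ∧ (g.1 : E)⁻¹ ∈ C.O ∧ (g.2 : E) ≠ 0 ∧
      (g.2 : E)⁻¹ ∈ C.O ∧ ∃ h1 h2, (a : C.K) * C.val ⟨g.2, h2⟩ = C.val ⟨g.1, h1⟩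
  then (len y C h.2.choose.1 : ℤ) - len y C h.2.choose.2 else 0

end Ord

/-- Let `k` be an algebraic extension of `𝔽_p`, for instance a finite field, and let `X` be a smooth
projective variety of dimension `n ≥ 2` over `k`. Let `a C` be rational functions on the curves `C`
of `X`, almost all equal to `1`, the sum of whose divisors is zero. Then there are `m > 0` and
finitely many symbols `{f, g}`, `f` and `g` rational functions on surfaces `W` of `X`, such that
`(a C) ^ m` is the product of the components at `C` of the boundaries of these symbols, for all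
curves `C` of `X`. -/
def Main : Prop :=
  ∀ (p : ℕ) [Fact p.Prime] (k E : Type u) [Field k] [CharP k p] [Algebra (ZMod p) k]
    [Algebra.IsAlgebraic (ZMod p) k] [Field E] [Algebra k E] (r n : ℕ) (ξ : Fin (r + 1) → E),
    2 ≤ n → IsSmoothVar k ξ n → ∀ a : (C : Pt k ξ (n - 1)) → C.Kˣ, {C | a C ≠ 1}.Finite →
    (∀ y : Pt k ξ n, ∑ᶠ C : Pt k ξ (n - 1), ordP y C (a C) = 0) →
    ∃ m : ℕ, 0 < m ∧ ∃ s : List ((W : Pt k ξ (n - 2)) × W.K × W.K),
      (∀ t ∈ s, t.2.1 ≠ 0 ∧ t.2.2 ≠ 0) ∧
      ∀ C : Pt k ξ (n - 1), a C ^ m = (s.map fun t => bd C t.1 t.2.1 t.2.2).prod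

end Pool.Agent.Helper54.KX
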